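import Pool.Agent.KS6_17.BF.Main

/-! All but few cobipartite graphs have no large induced subgraphs with few bends. -/

set_option autoImplicit false

namespace Pool.Agent.KS6_17.BF

open Pool.Agent.Results.MP_fe8c60_co.Unbounded Pool.Agent.KS6_17.BE

/-- Every induced subgraph of the cobipartite graph of `R` which has a `k`-bend representation has
less than `28 (k + 1) log₂ (2 m)` vertices in one of the two cliques, for all `k`. -/
def Sparse {m : ℕ} (R : Fin m → Fin m → Prop) : Prop :=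
  ∀ (k : ℕ) (S : Set (Fin m ⊕ Fin m)), HasEPG ((cobip R).induce S) k →
    ((Sum.inl ⁻¹' S : Set (Fin m)).ncard : ℝ) < 28 * ((k : ℝ) + 1) * Real.logb 2 (2 * m) ∨
    ((Sum.inr ⁻¹' S : Set (Fin m)).ncard : ℝ) < 28 * ((k : ℝ) + 1) * Real.logb 2 (2 * m)

/-- the number `⌈28 (k + 1) log₂ (2 m)⌉` -/
noncomputable def tk (m k : ℕ) : ℕ := ⌈28 * ((k : ℝ) + 1) * Real.logb 2 (2 * m)⌉₊

lemma exists_emb {m t : ℕ} (A : Set (Fin m)) (h : t ≤ A.ncard) :
    ∃ α : Fin t ↪ Fin m, ∀ a, α a ∈ A := by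
  classical
  obtain ⟨e⟩ : Nonempty (Fin t ↪ A) := by
    apply Function.Embedding.nonempty_of_card_le
    rw [Fintype.card_fin, ← Nat.card_eq_fintype_card, Nat.card_coe_set_eq]
    exact h
  exact ⟨e.trans (Function.Embedding.subtype _), fun a => (e a).2⟩

lemma bad_of_not_sparse {m : ℕ} {R : Fin m → Fin m → Prop} (h : ¬ Sparse R) :
    ∃ k, R ∈ BadRel m (tk m k) k := by
  classical
  unfold Sparse at h
  push Not at h
  obtain ⟨k, S, hS, hA, hB⟩ := h
  refine ⟨k, ?_⟩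
  obtain ⟨α, hα⟩ := exists_emb (t := tk m k) (Sum.inl ⁻¹' S : Set (Fin m)) (Nat.ceil_le.2 hA)
  obtain ⟨β, hβ⟩ := exists_emb (t := tk m k) (Sum.inr ⁻¹' S : Set (Fin m)) (Nat.ceil_le.2 hB)
  refine ⟨α, β, hasEPG_of_embedding ?_ hS⟩
  refine ⟨⟨fun v => match v with
    | Sum.inl a => ⟨Sum.inl (α a), hα a⟩
    | Sum.inr b => ⟨Sum.inr (β b), hβ b⟩, ?_⟩, ?_⟩
  · rintro (a | a) (b | b) hab
    · have h1 : (Sum.inl (α a) : Fin m ⊕ Fin m) = Sum.inl (α b) := congrArg Subtype.val hab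
      rw [α.injective (Sum.inl_injective h1)]
    · have h1 : (Sum.inl (α a) : Fin m ⊕ Fin m) = Sum.inr (β b) := congrArg Subtype.val hab
      exact absurd h1 (by simp)
    · have h1 : (Sum.inr (β a) : Fin m ⊕ Fin m) = Sum.inl (α b) := congrArg Subtype.val hab
      exact absurd h1 (by simp)
    · have h1 : (Sum.inr (β a) : Fin m ⊕ Fin m) = Sum.inr (β b) := congrArg Subtype.val hab
      rw [β.injective (Sum.inr_injective h1)]
  · rintro (a | a) (b | b) <;>
      simp [cobip, SimpleGraph.fromRel_adj, res]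

lemma badRel_empty {m t k : ℕ} (h : m < t) : BadRel m t k = ∅ := by
  ext R
  constructor
  · rintro ⟨α, -, -⟩
    have := Fintype.card_le_of_embedding α
    simp only [Fintype.card_fin] at this
    omega
  · intro h'
    exact absurd h' (Set.notMem_empty R)

lemma logb_ge {m : ℕ} (hm : 1 ≤ m) : 1 ≤ Real.logb 2 (2 * m) := by
  have hm1 : (1 : ℝ) ≤ m := by exact_mod_cast hm
  rw [Real.le_logb_iff_rpow_le (by norm_num) (by linarith)]
  simpa using (by linarith : (2 : ℝ) ≤ 2 * m)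

lemma tk_ge {m : ℕ} (hm : 1 ≤ m) (k : ℕ) : k < tk m k := by
  have h1 := logb_ge hm
  have h2 : 28 * ((k : ℝ) + 1) * Real.logb 2 (2 * m) ≤ tk m k := Nat.le_ceil _
  have hk : (0 : ℝ) < k + 1 := by positivity
  have h3 : (k : ℝ) + 1 ≤ tk m k := by
    refine le_trans ?_ h2
    nlinarith [mul_le_mul_of_nonneg_left h1 hk.le]
  have h4 : ((k + 1 : ℕ) : ℝ) ≤ tk m k := by push_cast; exact h3
  have h5 : k + 1 ≤ tk m k := by exact_mod_cast h4
  omega

lemma bad_le {m : ℕ} (hm : 1 ≤ m) (k : ℕ) :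
    ((BadRel m (tk m k) k).ncard : ℝ) * (2 * m) ^ 101 ≤ 2 ^ (m * m) := by
  rcases Nat.lt_or_ge m (tk m k) with h | h
  · rw [badRel_empty h]
    simp
  · have h2 : 28 * ((k : ℝ) + 1) * Real.logb 2 (2 * m) ≤ tk m k := Nat.le_ceil _
    have h1 := few_bad hm h h2
    have hL := logb_ge hm
    have hm1 : (1 : ℝ) ≤ m := by exact_mod_cast hm
    have hM0 : (0 : ℝ) < 2 * m := by linarith
    have hk0 : (0 : ℝ) ≤ k := by positivity
    obtain ⟨t, ht⟩ : ∃ t, t = tk m k := ⟨_, rfl⟩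
    rw [← ht] at h1 h2 ⊢
    have h3 : 28 * Real.logb 2 (2 * m) ≤ t := by
      refine le_trans ?_ h2
      nlinarith
    have h4 : (2 * m : ℝ) ^ 202 ≤ 2 ^ (t * t) := by
      have c3 : (2 * m : ℝ) = (2 : ℝ) ^ (Real.logb 2 (2 * m)) :=
        (Real.rpow_logb (by norm_num) (by norm_num) hM0).symm
      calc (2 * m : ℝ) ^ 202 = (2 : ℝ) ^ (Real.logb 2 (2 * m) * (202 : ℕ)) := by
            rw [Real.rpow_mul (by norm_num), ← c3, Real.rpow_natCast]
        _ ≤ (2 : ℝ) ^ ((t * t : ℕ) : ℝ) := by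
            refine Real.rpow_le_rpow_of_exponent_le (by norm_num) ?_
            push_cast
            nlinarith
        _ = 2 ^ (t * t) := Real.rpow_natCast _ _
    have h5 : (((BadRel m t k).ncard : ℝ) * (2 * m) ^ 101) ^ 2 ≤ (2 ^ (m * m)) ^ 2 := by
      calc _ = ((BadRel m t k).ncard : ℝ) ^ 2 * (2 * m) ^ 202 := by ring
        _ ≤ ((BadRel m t k).ncard : ℝ) ^ 2 * 2 ^ (t * t) :=
            mul_le_mul_of_nonneg_left h4 (by positivity)
        _ ≤ 2 ^ (2 * (m * m)) := h1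
        _ = _ := by rw [← pow_mul, mul_comm 2 (m * m)]
    exact (pow_le_pow_iff_left₀ (by positivity) (by positivity) (by norm_num)).1 h5

/-- Almost all cobipartite graphs are sparse. -/
theorem sparse_all {m : ℕ} (hm : 1 ≤ m) :
    ({R : Fin m → Fin m → Prop | ¬ Sparse R}.ncard : ℝ) * (2 * m) ^ 100 ≤ 2 ^ (m * m) := by
  classical
  have hm1 : (1 : ℝ) ≤ m := by exact_mod_cast hm
  have h1 : {R : Fin m → Fin m → Prop | ¬ Sparse R} ⊆
      ⋃ k ∈ Finset.range m, BadRel m (tk m k) k := by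
    intro R hR
    obtain ⟨k, hk⟩ := bad_of_not_sparse hR
    have hkm : k < m := by
      by_contra hcon
      rw [badRel_empty (lt_of_le_of_lt (not_lt.1 hcon) (tk_ge hm k))] at hk
      exact hk
    simp only [Set.mem_iUnion]
    exact ⟨k, Finset.mem_range.2 hkm, hk⟩
  have h2 : {R : Fin m → Fin m → Prop | ¬ Sparse R}.ncard ≤
      ∑ k ∈ Finset.range m, (BadRel m (tk m k) k).ncard :=
    (Set.ncard_le_ncard h1 (Set.toFinite _)).trans (Finset.set_ncard_biUnion_le _ _)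
  have h3 : ({R : Fin m → Fin m → Prop | ¬ Sparse R}.ncard : ℝ) ≤
      ∑ k ∈ Finset.range m, ((BadRel m (tk m k) k).ncard : ℝ) := by
    exact_mod_cast h2
  have h4 : (({R : Fin m → Fin m → Prop | ¬ Sparse R}.ncard : ℝ) * (2 * m) ^ 100) * (2 * m) ≤
      2 ^ (m * m) * (2 * m) := by
    calc _ = ({R : Fin m → Fin m → Prop | ¬ Sparse R}.ncard : ℝ) * (2 * m) ^ 101 := by ring
      _ ≤ (∑ k ∈ Finset.range m, ((BadRel m (tk m k) k).ncard : ℝ)) * (2 * m) ^ 101 :=
          mul_le_mul_of_nonneg_right h3 (by positivity)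
      _ = ∑ k ∈ Finset.range m, ((BadRel m (tk m k) k).ncard : ℝ) * (2 * m) ^ 101 :=
          Finset.sum_mul _ _ _
      _ ≤ ∑ _k ∈ Finset.range m, (2 : ℝ) ^ (m * m) := Finset.sum_le_sum fun k _ => bad_le hm k
      _ = m * 2 ^ (m * m) := by rw [Finset.sum_const, Finset.card_range, nsmul_eq_mul]
      _ ≤ 2 ^ (m * m) * (2 * m) := by
          have : (0 : ℝ) < 2 ^ (m * m) := by positivity
          nlinarith
  exact le_of_mul_le_mul_right h4 (by linarith)

/-- In particular there is a sparse relation. -/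
theorem exists_sparse {m : ℕ} (hm : 1 ≤ m) : ∃ R : Fin m → Fin m → Prop, Sparse R := by
  classical
  by_contra hcon
  push Not at hcon
  have h1 := sparse_all hm
  have h2 : {R : Fin m → Fin m → Prop | ¬ Sparse R} = Set.univ := Set.eq_univ_of_forall hcon
  rw [h2, Set.ncard_univ, card_rel] at h1
  have hm1 : (1 : ℝ) ≤ m := by exact_mod_cast hm
  have h3 : (1 : ℝ) < (2 * m) ^ 100 := one_lt_pow₀ (by linarith) (by norm_num)
  have h4 : (0 : ℝ) < 2 ^ (m * m) := by positivity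
  push_cast at h1
  nlinarith

end Pool.Agent.KS6_17.BF
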