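import Pool.Agent.KS6_17.BE.Main

/-! Induced subgraphs with few bends of random cobipartite graphs. -/

set_option autoImplicit false

namespace Pool.Agent.KS6_17.BF

open Pool.Agent.Results.MP_fe8c60_co.Unbounded Pool.Agent.KS6_17.BE

lemma hasEPG_of_embedding {V W : Type} {G : SimpleGraph V} {H : SimpleGraph W} (f : H ↪g G)
    {k : ℕ} (h : HasEPG G k) : HasEPG H k := by
  obtain ⟨P, h1, h2⟩ := h
  refine ⟨fun w => P (f w), fun w => h1 _, fun u v huv => ?_⟩
  rw [← f.map_adj_iff]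
  exact h2 _ _ (fun e => huv (f.injective e))

/-- the restriction of a relation to a block -/
def res {m t : ℕ} (R : Fin m → Fin m → Prop) (α β : Fin t ↪ Fin m) : Fin t → Fin t → Prop :=
  fun a b => R (α a) (β b)

open Classical in
/-- replace a block of a relation -/
noncomputable def put {m t : ℕ} (R : Fin m → Fin m → Prop) (α β : Fin t ↪ Fin m)
    (S : Fin t → Fin t → Prop) : Fin m → Fin m → Prop := fun x y =>
  if h : ∃ p : Fin t × Fin t, α p.1 = x ∧ β p.2 = y then S h.choose.1 h.choose.2 else R x y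

lemma put_block {m t : ℕ} (R : Fin m → Fin m → Prop) (α β : Fin t ↪ Fin m)
    (S : Fin t → Fin t → Prop) (a b : Fin t) : put R α β S (α a) (β b) = S a b := by
  classical
  have h : ∃ p : Fin t × Fin t, α p.1 = α a ∧ β p.2 = β b := ⟨(a, b), rfl, rfl⟩
  have h1 := h.choose_spec
  unfold put
  rw [dif_pos h, α.injective h1.1, β.injective h1.2]

lemma put_off {m t : ℕ} (R : Fin m → Fin m → Prop) (α β : Fin t ↪ Fin m)
    (S : Fin t → Fin t → Prop) {x y : Fin m}
    (h : ¬ ∃ p : Fin t × Fin t, α p.1 = x ∧ β p.2 = y) : put R α β S x y = R x y := by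
  classical
  unfold put
  rw [dif_neg h]

lemma card_rel (m : ℕ) : Nat.card (Fin m → Fin m → Prop) = 2 ^ (m * m) := by
  classical
  rw [Nat.card_eq_fintype_card]
  simp [← pow_mul]

lemma card_block {m t : ℕ} (α β : Fin t ↪ Fin m) (Bad : Set (Fin t → Fin t → Prop)) :
    {R : Fin m → Fin m → Prop | res R α β ∈ Bad}.ncard * 2 ^ (t * t) ≤
      Bad.ncard * 2 ^ (m * m) := by
  classical
  rw [← card_rel t, ← card_rel m, ← Nat.card_coe_set_eq, ← Nat.card_coe_set_eq, ← Nat.card_prod,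
    ← Nat.card_prod]
  refine Nat.card_le_card_of_injective
    (fun p : {R : Fin m → Fin m → Prop | res R α β ∈ Bad} × (Fin t → Fin t → Prop) =>
      ((⟨res p.1.1 α β, p.1.2⟩ : Bad), put p.1.1 α β p.2)) ?_
  rintro ⟨⟨R, hR⟩, S⟩ ⟨⟨R', hR'⟩, S'⟩ h
  simp only [Prod.mk.injEq, Subtype.mk.injEq] at h
  obtain ⟨h1, h2⟩ := h
  have hS : S = S' := by
    funext a b
    have := congrFun (congrFun h2 (α a)) (β b)
    rwa [put_block, put_block] at this
  have hRR : R = R' := by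
    funext x y
    by_cases hxy : ∃ p : Fin t × Fin t, α p.1 = x ∧ β p.2 = y
    · obtain ⟨p, rfl, rfl⟩ := hxy
      exact congrFun (congrFun h1 p.1) p.2
    · have := congrFun (congrFun h2 x) y
      rwa [put_off _ _ _ _ hxy, put_off _ _ _ _ hxy] at this
  subst hS
  subst hRR
  rfl

lemma card_emb (t m : ℕ) : Fintype.card (Fin t ↪ Fin m) ≤ m ^ t := by
  have h : Fintype.card (Fin t ↪ Fin m) ≤ Fintype.card (Fin t → Fin m) :=
    Fintype.card_le_of_injective (fun f => (f : Fin t → Fin m)) DFunLike.coe_injective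
  simpa using h

lemma union {m t : ℕ} (Bad : Set (Fin t → Fin t → Prop)) :
    {R : Fin m → Fin m → Prop | ∃ α β : Fin t ↪ Fin m, res R α β ∈ Bad}.ncard * 2 ^ (t * t) ≤
      m ^ (2 * t) * Bad.ncard * 2 ^ (m * m) := by
  classical
  have h0 : {R : Fin m → Fin m → Prop | ∃ α β : Fin t ↪ Fin m, res R α β ∈ Bad} =
      ⋃ p : (Fin t ↪ Fin m) × (Fin t ↪ Fin m), {R | res R p.1 p.2 ∈ Bad} := by
    ext R
    simp
  have h1 : (⋃ p : (Fin t ↪ Fin m) × (Fin t ↪ Fin m),
      {R : Fin m → Fin m → Prop | res R p.1 p.2 ∈ Bad}).ncard ≤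
      ∑ p : (Fin t ↪ Fin m) × (Fin t ↪ Fin m),
        {R : Fin m → Fin m → Prop | res R p.1 p.2 ∈ Bad}.ncard := by
    have h2 := Finset.card_biUnion_le (s := (Finset.univ :
      Finset ((Fin t ↪ Fin m) × (Fin t ↪ Fin m))))
      (t := fun p => (Set.toFinite {R : Fin m → Fin m → Prop | res R p.1 p.2 ∈ Bad}).toFinset)
    have h3 : (⋃ p : (Fin t ↪ Fin m) × (Fin t ↪ Fin m),
        {R : Fin m → Fin m → Prop | res R p.1 p.2 ∈ Bad}) =
        ((Finset.univ.biUnion fun p : (Fin t ↪ Fin m) × (Fin t ↪ Fin m) =>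
          (Set.toFinite {R : Fin m → Fin m → Prop | res R p.1 p.2 ∈ Bad}).toFinset :
          Finset (Fin m → Fin m → Prop)) : Set (Fin m → Fin m → Prop)) := by
      ext R
      simp
    rw [h3, Set.ncard_coe_finset]
    refine h2.trans (le_of_eq (Finset.sum_congr rfl fun p _ => ?_))
    rw [Set.ncard_eq_toFinset_card _ (Set.toFinite _)]
  rw [h0]
  calc _ ≤ (∑ p : (Fin t ↪ Fin m) × (Fin t ↪ Fin m),
        {R : Fin m → Fin m → Prop | res R p.1 p.2 ∈ Bad}.ncard) * 2 ^ (t * t) :=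
        Nat.mul_le_mul_right _ h1
    _ = ∑ p : (Fin t ↪ Fin m) × (Fin t ↪ Fin m),
        ({R : Fin m → Fin m → Prop | res R p.1 p.2 ∈ Bad}.ncard * 2 ^ (t * t)) :=
        Finset.sum_mul _ _ _
    _ ≤ ∑ _p : (Fin t ↪ Fin m) × (Fin t ↪ Fin m), Bad.ncard * 2 ^ (m * m) :=
        Finset.sum_le_sum fun p _ => card_block p.1 p.2 Bad
    _ = Fintype.card (Fin t ↪ Fin m) ^ 2 * (Bad.ncard * 2 ^ (m * m)) := by
        rw [Finset.sum_const, Finset.card_univ, Fintype.card_prod, smul_eq_mul, pow_two]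
    _ ≤ (m ^ t) ^ 2 * (Bad.ncard * 2 ^ (m * m)) :=
        Nat.mul_le_mul_right _ (Nat.pow_le_pow_left (card_emb t m) 2)
    _ = m ^ (2 * t) * Bad.ncard * 2 ^ (m * m) := by
        rw [← pow_mul, mul_comm t 2, mul_assoc]

/-- the bad relations for `k` and `t` -/
def BadRel (m t k : ℕ) : Set (Fin m → Fin m → Prop) :=
  {R | ∃ α β : Fin t ↪ Fin m, HasEPG (cobip (res R α β)) k}

lemma few_bad {m t k : ℕ} (hm : 1 ≤ m) (htm : t ≤ m)
    (ht : 28 * ((k : ℝ) + 1) * Real.logb 2 (2 * m) ≤ t) :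
    ((BadRel m t k).ncard : ℝ) ^ 2 * 2 ^ (t * t) ≤ 2 ^ (2 * (m * m)) := by
  have h1 : (BadRel m t k).ncard * 2 ^ (t * t) ≤
      m ^ (2 * t) * {R : Fin t → Fin t → Prop | HasEPG (cobip R) k}.ncard * 2 ^ (m * m) :=
    union {R : Fin t → Fin t → Prop | HasEPG (cobip R) k}
  have h2 := count t t k
  obtain ⟨N, hN⟩ : ∃ N : ℕ, N = (t + t) * (k + 1) := ⟨_, rfl⟩
  rw [← hN] at h2
  have hm1 : (1 : ℝ) ≤ m := by exact_mod_cast hm
  have hM0 : (0 : ℝ) < 2 * m := by linarith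
  have hL : 1 ≤ Real.logb 2 (2 * m) := by
    rw [Real.le_logb_iff_rpow_le (by norm_num) hM0]
    simpa using (by linarith : (2 : ℝ) ≤ 2 * m)
  have hk0 : (0 : ℝ) < k + 1 := by positivity
  have hkt : 28 * ((k : ℝ) + 1) ≤ t := by
    refine le_trans ?_ ht
    have : 28 * ((k : ℝ) + 1) * 1 ≤ 28 * ((k : ℝ) + 1) * Real.logb 2 (2 * m) :=
      mul_le_mul_of_nonneg_left hL (by positivity)
    linarith
  have htm' : (t : ℝ) ≤ m := by exact_mod_cast htm
  have hNr : (N : ℝ) = 2 * t * (k + 1) := by rw [hN]; push_cast; ring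
  have ht0 : (0 : ℝ) < t := by linarith
  have h3 : (2 * (N : ℝ)) ≤ (2 * m) ^ 2 := by
    rw [hNr]
    nlinarith [mul_pos ht0 hk0]
  have hX : ((BadRel m t k).ncard : ℝ) * 2 ^ (t * t) ≤
      (2 * m) ^ (14 * t * (k + 1)) * 2 ^ (m * m) := by
    have h4 : ((BadRel m t k).ncard : ℝ) * 2 ^ (t * t) ≤
        (m : ℝ) ^ (2 * t) * (2 * (N : ℝ)) ^ (3 * N) * 2 ^ (m * m) := by
      have h5 := h1.trans (Nat.mul_le_mul_right _ (Nat.mul_le_mul_left _ h2))
      exact_mod_cast h5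
    refine h4.trans (mul_le_mul_of_nonneg_right ?_ (by positivity))
    calc (m : ℝ) ^ (2 * t) * (2 * (N : ℝ)) ^ (3 * N)
        ≤ (2 * m) ^ (2 * t * (k + 1)) * ((2 * m) ^ 2) ^ (3 * N) := by
          refine mul_le_mul ?_ (pow_le_pow_left₀ (by positivity) h3 _) (by positivity)
            (by positivity)
          refine (pow_le_pow_left₀ (by positivity) (by linarith : (m : ℝ) ≤ 2 * m) _).trans ?_
          exact pow_le_pow_right₀ (by linarith) (Nat.le_mul_of_pos_right _ (by omega))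
      _ = (2 * m) ^ (14 * t * (k + 1)) := by
          rw [← pow_mul, ← pow_add]
          congr 1
          rw [hN]
          ring
  have h6 : (((2 * m : ℝ)) ^ (14 * t * (k + 1))) ^ 2 ≤ 2 ^ (t * t) := by
    have c3 : (2 * m : ℝ) = (2 : ℝ) ^ (Real.logb 2 (2 * m)) :=
      (Real.rpow_logb (by norm_num) (by norm_num) hM0).symm
    calc (((2 * m : ℝ)) ^ (14 * t * (k + 1))) ^ 2 = (2 * m : ℝ) ^ (28 * t * (k + 1)) := by
          rw [← pow_mul]; congr 1; ring
      _ = (2 : ℝ) ^ (Real.logb 2 (2 * m) * (28 * t * (k + 1) : ℕ)) := by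
          rw [Real.rpow_mul (by norm_num), ← c3, Real.rpow_natCast]
      _ ≤ (2 : ℝ) ^ ((t * t : ℕ) : ℝ) := by
          refine Real.rpow_le_rpow_of_exponent_le (by norm_num) ?_
          push_cast
          have := mul_le_mul_of_nonneg_left ht ht0.le
          nlinarith
      _ = 2 ^ (t * t) := Real.rpow_natCast _ _
  have h7 : (((BadRel m t k).ncard : ℝ) * 2 ^ (t * t)) ^ 2 ≤
      2 ^ (t * t) * (2 ^ (m * m)) ^ 2 := by
    refine (pow_le_pow_left₀ (by positivity) hX 2).trans ?_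
    rw [mul_pow]
    exact mul_le_mul_of_nonneg_right h6 (by positivity)
  have h8 : (0 : ℝ) < 2 ^ (t * t) := by positivity
  have h9 : ((2 : ℝ) ^ (m * m)) ^ 2 = 2 ^ (2 * (m * m)) := by rw [← pow_mul, mul_comm 2 (m * m)]
  rw [h9] at h7
  have h10 : (((BadRel m t k).ncard : ℝ) ^ 2 * 2 ^ (t * t)) * 2 ^ (t * t) ≤
      2 ^ (2 * (m * m)) * 2 ^ (t * t) := by
    calc _ = (((BadRel m t k).ncard : ℝ) * 2 ^ (t * t)) ^ 2 := by ring
      _ ≤ _ := h7
      _ = _ := by ring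
  exact le_of_mul_le_mul_right h10 h8

end Pool.Agent.KS6_17.BF
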